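import Mathlib

/-!
The exponential of a locally nilpotent inner derivation, as a homomorphism to polynomials.
-/

set_option autoImplicit false
set_option linter.unusedSectionVars false

namespace Pool.Agent.U609.RP

open Finset

section
variable (F : Type*) [Field F] [CharZero F] {B : Type*} [Ring B] [Algebra F B] (y : B)

/-- The divided powers of the commutator with `y`. -/
noncomputable def Dd : ℕ → B → B
  | 0, a => a
  | j + 1, a => ((j + 1 : ℕ) : F)⁻¹ • (y * Dd j a - Dd j a * y)

lemma Dd_zero (a : B) : Dd F y 0 a = a := rfl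

lemma Dd_succ (j : ℕ) (a : B) :
    Dd F y (j + 1) a = ((j + 1 : ℕ) : F)⁻¹ • (y * Dd F y j a - Dd F y j a * y) := rfl

lemma Dd_rec (j : ℕ) (a : B) :
    ((j + 1 : ℕ) : F) • Dd F y (j + 1) a = y * Dd F y j a - Dd F y j a * y := by
  rw [Dd_succ, smul_smul, mul_inv_cancel₀ (by exact_mod_cast Nat.succ_ne_zero j), one_smul]

lemma Dd_add (j : ℕ) (a b : B) : Dd F y j (a + b) = Dd F y j a + Dd F y j b := by
  induction j with
  | zero => rfl
  | succ j ih => rw [Dd_succ, Dd_succ, Dd_succ, ih, ← smul_add]; congr 1; noncomm_ring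

lemma Dd_smul (j : ℕ) (r : F) (a : B) : Dd F y j (r • a) = r • Dd F y j a := by
  induction j with
  | zero => rfl
  | succ j ih =>
    rw [Dd_succ, Dd_succ, ih, mul_smul_comm, smul_mul_assoc, ← smul_sub, smul_comm]

lemma Dd_one (j : ℕ) : Dd F y (j + 1) (1 : B) = 0 := by
  induction j with
  | zero => rw [Dd_succ, Dd_zero, mul_one, one_mul, sub_self, smul_zero]
  | succ j ih => rw [Dd_succ, ih, mul_zero, zero_mul, sub_self, smul_zero]

lemma Dd_mem {I : TwoSidedIdeal B} {a : B} (ha : a ∈ I) (j : ℕ) : Dd F y j a ∈ I := by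
  induction j with
  | zero => exact ha
  | succ j ih =>
    rw [Dd_succ]
    have h1 : y * Dd F y j a - Dd F y j a * y ∈ I :=
      I.sub_mem (I.mul_mem_left _ _ ih) (I.mul_mem_right _ _ ih)
    have h2 := I.mul_mem_left (algebraMap F B ((j + 1 : ℕ) : F)⁻¹) _ h1
    rwa [← Algebra.smul_def] at h2

/-- The Leibniz rule. -/
lemma Dd_mul (n : ℕ) (a b : B) :
    Dd F y n (a * b) = ∑ p ∈ antidiagonal n, Dd F y p.1 a * Dd F y p.2 b := by
  induction n with
  | zero => simp [Dd_zero]
  | succ n ih =>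
    have hn : ((n + 1 : ℕ) : F) ≠ 0 := by exact_mod_cast Nat.succ_ne_zero n
    have key : ((n + 1 : ℕ) : F) • Dd F y (n + 1) (a * b) =
        ((n + 1 : ℕ) : F) • ∑ p ∈ antidiagonal (n + 1), Dd F y p.1 a * Dd F y p.2 b := by
      rw [Dd_rec, ih, Finset.mul_sum, Finset.sum_mul, ← Finset.sum_sub_distrib]
      have h1 : ∀ p ∈ antidiagonal n, y * (Dd F y p.1 a * Dd F y p.2 b) -
          Dd F y p.1 a * Dd F y p.2 b * y =
          ((p.1 + 1 : ℕ) : F) • (Dd F y (p.1 + 1) a * Dd F y p.2 b) +
            ((p.2 + 1 : ℕ) : F) • (Dd F y p.1 a * Dd F y (p.2 + 1) b) := by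
        intro p _
        rw [← smul_mul_assoc, ← mul_smul_comm, Dd_rec, Dd_rec]
        noncomm_ring
      rw [Finset.sum_congr rfl h1, Finset.sum_add_distrib, Finset.smul_sum]
      have h2 : ∀ p ∈ antidiagonal (n + 1), ((n + 1 : ℕ) : F) • (Dd F y p.1 a * Dd F y p.2 b) =
          ((p.1 : ℕ) : F) • (Dd F y p.1 a * Dd F y p.2 b) +
            ((p.2 : ℕ) : F) • (Dd F y p.1 a * Dd F y p.2 b) := by
        intro p hp
        rw [← add_smul, ← Nat.cast_add, mem_antidiagonal.mp hp]
      rw [Finset.sum_congr rfl h2, Finset.sum_add_distrib]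
      congr 1
      · rw [Finset.Nat.sum_antidiagonal_succ (f := fun p =>
          ((p.1 : ℕ) : F) • (Dd F y p.1 a * Dd F y p.2 b))]
        simp
      · rw [Finset.Nat.sum_antidiagonal_succ' (f := fun p =>
          ((p.2 : ℕ) : F) • (Dd F y p.1 a * Dd F y p.2 b))]
        simp
    have := congrArg (fun z => ((n + 1 : ℕ) : F)⁻¹ • z) key
    beta_reduce at this
    rwa [smul_smul, smul_smul, inv_mul_cancel₀ hn, one_smul, one_smul] at this

/-- Local nilpotency. -/
def LN (a : B) : Prop := ∃ N, ∀ j, N ≤ j → Dd F y j a = 0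

variable {F y}

lemma LN.add {a b : B} (ha : LN F y a) (hb : LN F y b) : LN F y (a + b) := by
  obtain ⟨N, hN⟩ := ha
  obtain ⟨M, hM⟩ := hb
  exact ⟨max N M, fun j hj => by
    rw [Dd_add, hN j ((le_max_left _ _).trans hj), hM j ((le_max_right _ _).trans hj), add_zero]⟩

lemma LN.smul {a : B} (r : F) (ha : LN F y a) : LN F y (r • a) := by
  obtain ⟨N, hN⟩ := ha
  exact ⟨N, fun j hj => by rw [Dd_smul, hN j hj, smul_zero]⟩

lemma LN.one : LN F y (1 : B) := ⟨1, fun j hj => by
  obtain ⟨i, rfl⟩ := Nat.exists_eq_add_of_le' hj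
  exact Dd_one F y i⟩

lemma LN.mul {a b : B} (ha : LN F y a) (hb : LN F y b) : LN F y (a * b) := by
  obtain ⟨N, hN⟩ := ha
  obtain ⟨M, hM⟩ := hb
  refine ⟨N + M, fun j hj => ?_⟩
  rw [Dd_mul]
  apply Finset.sum_eq_zero
  intro p hp
  have h1 := mem_antidiagonal.mp hp
  by_cases h : N ≤ p.1
  · rw [hN _ h, zero_mul]
  · rw [hM _ (by omega), mul_zero]

variable (F y) in
/-- The exponential. -/
noncomputable def Ex (h : ∀ a : B, LN F y a) : B →+* Polynomial B where
  toFun a := ∑ j ∈ range (h a).choose, Polynomial.monomial j (Dd F y j a)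
  map_one' := by
    ext n
    rw [Polynomial.finsetSum_coeff, Polynomial.coeff_one]
    simp only [Polynomial.coeff_monomial, Finset.sum_ite_eq', Finset.mem_range]
    split_ifs with h1 h2 h2
    · subst h2; rfl
    · obtain ⟨m, rfl⟩ := Nat.exists_eq_succ_of_ne_zero (fun hh => h2 hh)
      exact Dd_one F y m
    · subst h2
      have := (h 1).choose_spec 0 (by omega)
      rw [Dd_zero] at this
      exact this.symm
    · rfl
  map_zero' := by
    have : ∀ j, Dd F y j (0 : B) = 0 := fun j => by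
      have := Dd_smul F y j 0 (0 : B)
      rwa [zero_smul, zero_smul] at this
    simp [this]
  map_add' a b := by
    ext n
    rw [Polynomial.coeff_add]
    simp only [Polynomial.finsetSum_coeff, Polynomial.coeff_monomial, Finset.sum_ite_eq',
      Finset.mem_range]
    have key : ∀ c : B, (if n < (h c).choose then Dd F y n c else 0) = Dd F y n c := by
      intro c
      split_ifs with h1
      · rfl
      · exact ((h c).choose_spec n (by omega)).symm
    rw [key, key, key, Dd_add]
  map_mul' a b := by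
    ext n
    rw [Polynomial.coeff_mul]
    simp only [Polynomial.finsetSum_coeff, Polynomial.coeff_monomial, Finset.sum_ite_eq',
      Finset.mem_range]
    have key : ∀ (c : B) (n : ℕ), (if n < (h c).choose then Dd F y n c else 0) = Dd F y n c := by
      intro c n
      split_ifs with h1
      · rfl
      · exact ((h c).choose_spec n (by omega)).symm
    rw [key, Dd_mul]
    exact Finset.sum_congr rfl fun p _ => by rw [key, key]

lemma Ex_coeff (h : ∀ a : B, LN F y a) (a : B) (n : ℕ) : (Ex F y h a).coeff n = Dd F y n a := by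
  change (∑ j ∈ range (h a).choose, Polynomial.monomial j (Dd F y j a)).coeff n = _
  simp only [Polynomial.finsetSum_coeff, Polynomial.coeff_monomial, Finset.sum_ite_eq',
    Finset.mem_range]
  split_ifs with h1
  · rfl
  · exact ((h a).choose_spec n (by omega)).symm

/-- Evaluation of the exponential at a scalar. -/
noncomputable def tau (h : ∀ a : B, LN F y a) (c : F) : B →+* B :=
  (Polynomial.eval₂RingHom' (RingHom.id B) (algebraMap F B c)
    (fun a => (Algebra.commutes c a).symm)).comp (Ex F y h)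

lemma tau_apply (h : ∀ a : B, LN F y a) (c : F) (a : B) {N : ℕ} (hN : ∀ j, N ≤ j → Dd F y j a = 0) :
    tau h c a = ∑ j ∈ range N, c ^ j • Dd F y j a := by
  change Polynomial.eval₂ (RingHom.id B) (algebraMap F B c) (Ex F y h a) = _
  have hdeg : (Ex F y h a).natDegree < N + 1 := by
    rw [Nat.lt_succ_iff, Polynomial.natDegree_le_iff_coeff_eq_zero]
    intro m hm
    rw [Ex_coeff]
    exact hN m hm.le
  rw [Polynomial.eval₂_eq_sum_range' _ hdeg, Finset.sum_range_succ, Ex_coeff, hN N le_rfl]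
  rw [map_zero, zero_mul, add_zero]
  refine Finset.sum_congr rfl fun j _ => ?_
  rw [Ex_coeff, RingHom.id_apply, ← map_pow, ← Algebra.commutes, ← Algebra.smul_def]

lemma tau_smul (h : ∀ a : B, LN F y a) (c r : F) (a : B) : tau h c (r • a) = r • tau h c a := by
  obtain ⟨N, hN⟩ := h a
  rw [tau_apply h c a hN, tau_apply h c (r • a) (N := N) (fun j hj => by
    rw [Dd_smul, hN j hj, smul_zero]), Finset.smul_sum]
  refine Finset.sum_congr rfl fun j _ => ?_
  rw [Dd_smul, smul_comm]

lemma tau_mem (h : ∀ a : B, LN F y a) (c : F) {I : TwoSidedIdeal B} {a : B} (ha : a ∈ I) :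
    tau h c a ∈ I := by
  obtain ⟨N, hN⟩ := h a
  rw [tau_apply h c a hN]
  refine Finset.sum_induction _ (· ∈ I) (fun a b => I.add_mem) I.zero_mem fun j _ => ?_
  have h2 := I.mul_mem_left (algebraMap F B (c ^ j)) _ (Dd_mem F y ha j)
  rwa [← Algebra.smul_def] at h2

lemma Dd_Dd (i j : ℕ) (a : B) :
    Dd F y i (Dd F y j a) = ((i + j).choose i : F) • Dd F y (i + j) a := by
  induction i with
  | zero => rw [Dd_zero, Nat.choose_zero_right, Nat.cast_one, one_smul, zero_add]
  | succ i ih =>
    have hn : ((i + 1 : ℕ) : F) ≠ 0 := by exact_mod_cast Nat.succ_ne_zero i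
    rw [Dd_succ, ih, mul_smul_comm, smul_mul_assoc, ← smul_sub, ← Dd_rec,
      show i + 1 + j = i + j + 1 by ring, smul_smul, smul_smul]
    congr 1
    have h1 : ((i + j + 1 : ℕ) : F) * ((i + j).choose i : F) =
        ((i + j + 1).choose (i + 1) : F) * ((i + 1 : ℕ) : F) := by
      exact_mod_cast Nat.add_one_mul_choose_eq (i + j) i
    field_simp
    linear_combination h1

lemma tau_tau (h : ∀ a : B, LN F y a) (c d : F) (a : B) :
    tau h c (tau h d a) = tau h (c + d) a := by
  obtain ⟨N, hN⟩ := h a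
  rw [tau_apply h d a hN, tau_apply h (c + d) a hN, map_sum]
  have h1 : ∀ j ∈ range N, tau h c (d ^ j • Dd F y j a) =
      ∑ i ∈ range (N - j), (c ^ i * d ^ j * ((i + j).choose i : F)) • Dd F y (i + j) a := by
    intro j _
    rw [tau_smul, tau_apply h c (Dd F y j a) (N := N - j) (fun i hi => by
      rw [Dd_Dd, hN _ (by omega), smul_zero]), Finset.smul_sum]
    refine Finset.sum_congr rfl fun i _ => ?_
    rw [Dd_Dd, smul_smul, smul_smul]
    congr 1
    ring
  rw [Finset.sum_congr rfl h1]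
  rw [← Finset.sum_range_diag_flip N
    (fun j i => (c ^ i * d ^ j * ((i + j).choose i : F)) • Dd F y (i + j) a)]
  refine Finset.sum_congr rfl fun m _ => ?_
  have h2 : ∀ k ∈ range (m + 1), (c ^ (m - k) * d ^ k * (((m - k) + k).choose (m - k) : F)) •
      Dd F y (m - k + k) a = (d ^ k * c ^ (m - k) * (m.choose k : F)) • Dd F y m a := by
    intro k hk
    have hk' : k ≤ m := by have := Finset.mem_range.mp hk; omega
    rw [Nat.sub_add_cancel hk', Nat.choose_symm hk']
    congr 1
    ring
  rw [Finset.sum_congr rfl h2, ← Finset.sum_smul, ← add_pow, add_comm d c]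

lemma tau_zero (h : ∀ a : B, LN F y a) (a : B) : tau h 0 a = a := by
  obtain ⟨N, hN⟩ := h a
  rw [tau_apply h 0 a (N := N + 1) (fun j hj => hN j (by omega)), Finset.sum_range_succ',
    Finset.sum_eq_zero, zero_add, pow_zero, one_smul, Dd_zero]
  intro i _
  rw [zero_pow (Nat.succ_ne_zero i), zero_smul]

lemma tau_neg (h : ∀ a : B, LN F y a) (c : F) (a : B) : tau h c (tau h (-c) a) = a := by
  rw [tau_tau, add_neg_cancel, tau_zero]

lemma tau_neg' (h : ∀ a : B, LN F y a) (c : F) (a : B) : tau h (-c) (tau h c a) = a := by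
  rw [tau_tau, neg_add_cancel, tau_zero]

lemma tau_mem_iff (h : ∀ a : B, LN F y a) (c : F) {I : TwoSidedIdeal B} {a : B} :
    tau h c a ∈ I ↔ a ∈ I :=
  ⟨fun ha => by
    have := tau_mem h (-c) ha
    rwa [tau_neg'] at this, tau_mem h c⟩

end

end Pool.Agent.U609.RP
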