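import Pool.Agent.U609.RP.Pig
import Pool.Agent.R693.C.Final

/-!
Primitive ideals of `U(W_{≥ -1})` are restrictions of primitive ideals of `U(W)`.
-/

set_option autoImplicit false
set_option linter.unusedSectionVars false

namespace Pool.Agent.U609.RP

open Finset Pool.Agent.R693 Pool.Agent.R693.W

section
variable {F : Type} [Field F] [CharZero F] {A Ap : Type} [Ring A] [Ring Ap] [Algebra F A]
  [Algebra F Ap] {e : ℤ → A} {ep : ℕ → Ap}

/-- A two-sided ideal is primitive if it is the annihilator of a simple module. -/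
def IsPrim {U : Type} [Ring U] (P : TwoSidedIdeal U) : Prop :=
  ∃ (M : Type) (_ : AddCommGroup M) (_ : Module U M), IsSimpleModule U M ∧
    ∀ a : U, a ∈ P ↔ ∀ x : M, a • x = 0

/-- From left ideals of the subalgebra to simple modules. -/
lemma lift_of (φ : Ap →ₐ[F] A) {P : TwoSidedIdeal A} (L₁ : Ideal Ap)
    (hmax : ∀ a ∉ L₁, ∃ b, 1 - b * a ∈ L₁)
    (hQ : ∀ q, (∀ w, q * w ∈ L₁) → φ q ∈ P)
    (h1 : (1 : A) ∉ Ideal.span (φ '' (L₁ : Set Ap)) ⊔ P.asIdeal)
    (hinjP : ∀ P' : TwoSidedIdeal A, IsPrimeT P' →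
      TwoSidedIdeal.comap φ P' = TwoSidedIdeal.comap φ P → P' = P) : IsPrim P := by
  have hne : Ideal.span (φ '' (L₁ : Set Ap)) ⊔ P.asIdeal ≠ ⊤ := by
    rwa [Ne, Ideal.eq_top_iff_one]
  obtain ⟨𝓜, hm, hle⟩ := Ideal.exists_le_maximal _ hne
  have hsimple : IsSimpleModule A (A ⧸ 𝓜) := isSimpleModule_iff_isCoatom.mpr hm.out
  have hLm : ∀ l ∈ L₁, φ l ∈ 𝓜 := fun l hl =>
    hle (Submodule.mem_sup_left (Ideal.subset_span ⟨l, hl, rfl⟩))
  have hPm : ∀ p ∈ P, p ∈ 𝓜 := fun p hp =>
    hle (Submodule.mem_sup_right (TwoSidedIdeal.mem_asIdeal.mpr hp))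
  have h1m : (1 : A) ∉ 𝓜 := fun h => hm.ne_top ((Ideal.eq_top_iff_one _).mpr h)
  have hback : ∀ a : Ap, φ a ∈ 𝓜 → a ∈ L₁ := by
    intro a ha
    by_contra hcon
    obtain ⟨b, hb⟩ := hmax a hcon
    apply h1m
    have h2 := 𝓜.add_mem (hLm _ hb) (𝓜.mul_mem_left (φ b) ha)
    rwa [map_sub, map_one, map_mul, sub_add_cancel] at h2
  let P' : TwoSidedIdeal A := TwoSidedIdeal.mk' {a | ∀ x : A ⧸ 𝓜, a • x = 0}
    (fun x => zero_smul _ _) (fun ha hb x => by rw [add_smul, ha x, hb x, add_zero])
    (fun ha x => by rw [neg_smul, ha x, neg_zero])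
    (fun {a b} hb x => by rw [mul_smul, hb x, smul_zero])
    (fun {a b} ha x => by rw [mul_smul, ha])
  have hP' : ∀ a : A, a ∈ P' ↔ ∀ x : A ⧸ 𝓜, a • x = 0 := by
    intro a
    change a ∈ TwoSidedIdeal.mk' _ _ _ _ _ _ ↔ _
    rw [TwoSidedIdeal.mem_mk']
    rfl
  have hmk : ∀ a b : A, a • (Submodule.Quotient.mk b : A ⧸ 𝓜) = 0 ↔ a * b ∈ 𝓜 := by
    intro a b
    rw [← Submodule.Quotient.mk_smul, Submodule.Quotient.mk_eq_zero, smul_eq_mul]
  have hprime : IsPrimeT P' := C.prime_of_ann hP'
  have heq : P' = P := by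
    apply hinjP P' hprime
    ext q
    rw [TwoSidedIdeal.mem_comap, TwoSidedIdeal.mem_comap, hP']
    constructor
    · intro h
      apply hQ
      intro w
      apply hback
      rw [map_mul, ← hmk]
      exact h _
    · intro h x
      obtain ⟨b, rfl⟩ := Submodule.Quotient.mk_surjective _ x
      rw [hmk]
      exact hPm _ (P.mul_mem_right _ _ h)
  refine ⟨A ⧸ 𝓜, inferInstance, inferInstance, hsimple, fun a => ?_⟩
  rw [← heq]
  exact hP' a

lemma map_om (φ : Ap →ₐ[F] A) (hφ : ∀ n : ℕ, φ (ep n) = e n) (d : ℕ) (n : G ℕ) :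
    φ (om ep d n) = om e d (fun i => (n i : ℤ)) := by
  induction d with
  | zero => exact map_one _
  | succ d ih =>
    have h1 : om ep (d + 1) n = ep (n d) * om ep d n := rfl
    have h2 : om e (d + 1) (fun i => (n i : ℤ)) = e (n d) * om e d (fun i => (n i : ℤ)) := rfl
    rw [h1, h2, map_mul, ih, hφ]

lemma act_cast (k : ℕ) (f : G ℕ → A) (g : G ℤ → A) (hfg : ∀ n : G ℕ, f n = g (fun i => (n i : ℤ))) :
    ∀ n : G ℕ, act A (Dl F ℕ k) f n = act A (Dl F ℤ k) g (fun i => (n i : ℤ)) := by
  have hcast : ∀ (n : G ℕ) (j : ℕ), (fun i => (((n + dl j : G ℕ)) i : ℤ)) =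
      (fun i => (n i : ℤ)) + (dl j : G ℤ) := by
    intro n j
    funext i
    rw [Pi.add_apply, Pi.add_apply, Nat.cast_add]
    congr 1
    rw [dl_apply, dl_apply]
    split_ifs <;> rfl
  have key : ∀ s : Finset (ℕ × ℕ), ∀ (f : G ℕ → A) (g : G ℤ → A),
      (∀ n : G ℕ, f n = g (fun i => (n i : ℤ))) → ∀ n : G ℕ,
      act A (∏ p ∈ s, (X p.1 - X p.2 : K F ℕ)) f n =
        act A (∏ p ∈ s, (X p.1 - X p.2 : K F ℤ)) g (fun i => (n i : ℤ)) := by
    intro s
    induction s using Finset.induction_on with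
    | empty =>
      intro f g hfg n
      rw [Finset.prod_empty, Finset.prod_empty, act_one, act_one, hfg]
    | insert p s hp ih =>
      intro f g hfg n
      rw [Finset.prod_insert hp, Finset.prod_insert hp, mul_comm, mul_comm (X p.1 - X p.2 : K F ℤ),
        act_mul, act_mul]
      apply ih
      intro n
      have h1 := act_D (C := F) p.1 p.2 f n
      have h2 := act_D (C := F) p.1 p.2 g (fun i => (n i : ℤ))
      unfold D at h1 h2
      rw [h1, h2, hfg, hfg, hcast, hcast]
  exact key (offd k) f g hfg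

lemma map_eta (φ : Ap →ₐ[F] A) (hφ : ∀ n : ℕ, φ (ep n) = e n) (k N : ℕ) (n : G ℕ) :
    φ (eta0 F ep k N n) = eta0 F e k N (fun i => (n i : ℤ)) := by
  unfold eta0
  have h1 : φ (act Ap (Dl F ℕ k ^ N) (om ep k) n) =
      act A (Dl F ℕ k ^ N) (fun n => φ.toLinearMap (om ep k n)) n := by
    rw [act_map]
    rfl
  rw [h1]
  have key : ∀ (N : ℕ) (f : G ℕ → A) (g : G ℤ → A),
      (∀ n : G ℕ, f n = g (fun i => (n i : ℤ))) → ∀ n : G ℕ,
      act A (Dl F ℕ k ^ N) f n = act A (Dl F ℤ k ^ N) g (fun i => (n i : ℤ)) := by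
    intro N
    induction N with
    | zero => intro f g hfg n; rw [pow_zero, pow_zero, act_one, act_one, hfg]
    | succ N ih =>
      intro f g hfg n
      rw [act_pow_succ, act_pow_succ]
      exact ih _ _ (act_cast k f g hfg) n
  exact key N _ _ (fun n => map_om φ hφ k n) n

/-- Primitive ideals of the subalgebra come from primitive ideals: nonzero ideals. -/
theorem lift_prim (φ : Ap →ₐ[F] A) (hφ : ∀ n : ℕ, φ (ep n) = e n) (he : IsW F e)
    (hep : IsW F ep)
    (hgen : ∀ x : A, ∃ k, x ∈ Fl F e k) (hgenp : ∀ x : Ap, ∃ k, x ∈ Fl F ep k)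
    {P : TwoSidedIdeal A} (hP : IsPrimeT P) (h0 : P ≠ ⊥)
    (hinjP : ∀ P' : TwoSidedIdeal A, IsPrimeT P' →
      TwoSidedIdeal.comap φ P' = TwoSidedIdeal.comap φ P → P' = P)
    (hQ : IsPrim (TwoSidedIdeal.comap φ P)) : IsPrim P := by
  classical
  obtain ⟨M, _, _, hM, hMQ⟩ := hQ
  have h := LN_all hep hgenp
  obtain ⟨k, N, hV, hη⟩ := exists_min (F := F) he hgen h0 hP.1
  have hmemφ : ∀ a : Ap, a ∈ TwoSidedIdeal.comap φ P ↔ φ a ∈ P := fun a => TwoSidedIdeal.mem_comap _
  -- the point and the vector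
  obtain ⟨c, v, hcv⟩ : ∃ (c : F) (v : M), ∀ n0 : ℕ, ∃ n : G ℕ, (∀ i < k, n0 ≤ n i) ∧
      tau h c (eta0 F ep k N n) • v ≠ 0 := by
    by_contra hcon
    push Not at hcon
    have hall : ∀ b : G ℕ, φ (eta0 F ep k N b) ∈ P := by
      intro b
      rw [← hmemφ, hMQ]
      intro v
      let S : Submodule F Ap :=
        { carrier := {a | a • v = 0}
          add_mem' := fun {a b} ha hb => by
            change (a + b) • v = 0
            rw [add_smul, show a • v = 0 from ha, show b • v = 0 from hb, add_zero]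
          zero_mem' := zero_smul _ _
          smul_mem' := fun r a ha => by
            change (r • a) • v = 0
            rw [Algebra.smul_def, mul_smul, show a • v = 0 from ha, smul_zero] }
      choose n0 hn0 using fun j : ℕ => hcon (j : F) v
      have hpig : eta0 F ep k N b ∈ S := by
        apply pig (k := k) (S := S) (f := eta0 F ep k N) (Dep_eta0 k N)
          (∑ j ∈ range (k + 1), n0 j)
        intro j hj n hn
        rw [← tau_eta hep h]
        refine hn0 j n fun i hi => ?_
        have h2 : n0 j ≤ ∑ j ∈ range (k + 1), n0 j :=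
          Finset.single_le_sum (f := fun j => n0 j) (fun _ _ => Nat.zero_le _)
            (Finset.mem_range.mpr (by omega))
        exact h2.trans (hn i hi)
      exact hpig
    apply hP.1
    rw [← TwoSidedIdeal.one_mem_iff]
    apply key_lemma he hgen hP hV hη (c := 0)
    intro n hn
    rw [one_mul]
    have h2 := hall fun i => (n i).toNat
    rw [map_eta φ hφ] at h2
    have h3 : eta0 F e k N (fun i => (((n i).toNat : ℕ) : ℤ)) = eta0 F e k N n := by
      apply Dep_eta0
      intro i hi
      exact Int.toNat_of_nonneg (hn i hi)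
    rwa [h3] at h2
  -- the left ideal
  let L₁ : Ideal Ap :=
    { carrier := {a | tau h c a • v = 0}
      add_mem' := fun {a b} ha hb => by
        change tau h c (a + b) • v = 0
        rw [map_add, add_smul, show tau h c a • v = 0 from ha, show tau h c b • v = 0 from hb,
          add_zero]
      zero_mem' := by
        change tau h c 0 • v = 0
        rw [map_zero, zero_smul]
      smul_mem' := fun r a ha => by
        change tau h c (r • a) • v = 0
        rw [smul_eq_mul, map_mul, mul_smul, show tau h c a • v = 0 from ha, smul_zero] }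
  have hL : ∀ a, a ∈ L₁ ↔ tau h c a • v = 0 := fun a => Iff.rfl
  have hv : v ≠ 0 := by
    rintro rfl
    obtain ⟨n, -, hn⟩ := hcv 0
    exact hn (smul_zero _)
  have htrans : ∀ y z : M, y ≠ 0 → ∃ b : Ap, b • y = z := by
    intro y z hy
    have h2 : Submodule.span Ap {y} = ⊤ := by
      rcases eq_bot_or_eq_top (Submodule.span Ap {y}) with h | h
      · rw [Submodule.span_singleton_eq_bot] at h
        exact absurd h hy
      · exact h
    have h3 : z ∈ Submodule.span Ap {y} := by rw [h2]; trivial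
    exact Submodule.mem_span_singleton.mp h3
  have hQL : ∀ q : Ap, φ q ∈ P → q ∈ L₁ := by
    intro q hq
    rw [hL]
    exact (hMQ _).mp (tau_mem h c ((hmemφ q).mpr hq)) v
  apply lift_of φ L₁
  · intro a ha
    rw [hL] at ha
    obtain ⟨b, hb⟩ := htrans _ v ha
    refine ⟨tau h (-c) b, ?_⟩
    rw [hL, map_sub, map_one, map_mul, tau_neg, sub_smul, one_smul, mul_smul, hb, sub_self]
  · intro q hq
    rw [← hmemφ, ← tau_mem_iff h c, hMQ]
    intro y
    obtain ⟨b, rfl⟩ := htrans v y hv
    have h2 := hq (tau h (-c) b)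
    rw [hL, map_mul, tau_neg, mul_smul] at h2
    exact h2
  · intro hone
    set S : Submodule F A := Submodule.map φ.toLinearMap (L₁.restrictScalars F) ⊔ subsp F P with hS
    have hmul : ∀ a : A, ∀ l ∈ L₁, (fun n => eta0 F e k N n * (a * φ l)) ∈ Inf S k := by
      intro a l hl
      obtain ⟨c0, hc0⟩ := (red_elt he hgen hV a).2
      refine ⟨c0, fun n hn => ?_⟩
      beta_reduce
      obtain ⟨w, hw, p, hp, hwp⟩ := Submodule.mem_sup.mp (hc0 n hn)
      beta_reduce at hwp
      obtain ⟨w', rfl⟩ := Apos_eq φ hφ hw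
      rw [← mul_assoc, ← hwp, add_mul, ← map_mul]
      refine Submodule.add_mem_sup ⟨w' * l, ?_, rfl⟩ (mem_subsp.mpr
        (P.mul_mem_right _ _ (mem_subsp.mp hp)))
      exact L₁.mul_mem_left w' hl
    have hall : ∀ y ∈ Ideal.span (φ '' (L₁ : Set Ap)) ⊔ P.asIdeal, ∀ a : A,
        (fun n => eta0 F e k N n * (a * y)) ∈ Inf S k := by
      intro y hy
      obtain ⟨y1, hy1, y2, hy2, rfl⟩ := Submodule.mem_sup.mp hy
      have h2 : ∀ a : A, (fun n => eta0 F e k N n * (a * y1)) ∈ Inf S k := by
        clear hy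
        induction hy1 using Submodule.span_induction with
        | mem z hz =>
          obtain ⟨l, hl, rfl⟩ := hz
          intro a
          exact hmul a l hl
        | zero =>
          intro a
          refine ⟨0, fun n _ => ?_⟩
          beta_reduce
          rw [mul_zero, mul_zero]
          exact S.zero_mem
        | add z z' _ _ hz hz' =>
          intro a
          have : (fun n => eta0 F e k N n * (a * (z + z'))) =
              (fun n => eta0 F e k N n * (a * z)) + fun n => eta0 F e k N n * (a * z') := by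
            funext n
            rw [mul_add, mul_add]
            rfl
          rw [this]
          exact Submodule.add_mem _ (hz a) (hz' a)
        | smul r z _ hz =>
          intro a
          rw [smul_eq_mul, ← mul_assoc]
          exact hz (a * r)
      intro a
      have h3 : (fun n => eta0 F e k N n * (a * (y1 + y2))) =
          (fun n => eta0 F e k N n * (a * y1)) + fun n => eta0 F e k N n * (a * y2) := by
        funext n
        rw [mul_add, mul_add]
        rfl
      rw [h3]
      refine Submodule.add_mem _ (h2 a) ⟨0, fun n _ => Submodule.mem_sup_right ?_⟩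
      rw [mem_subsp]
      exact P.mul_mem_left _ _ (P.mul_mem_left _ _ (TwoSidedIdeal.mem_asIdeal.mp hy2))
    obtain ⟨c0, hc0⟩ := hall 1 hone 1
    obtain ⟨n, hn, hne⟩ := hcv c0.toNat
    apply hne
    have h2 := hc0 (fun i => (n i : ℤ)) fun i hi => by
      have := hn i hi
      omega
    beta_reduce at h2
    rw [mul_one, mul_one, ← map_eta φ hφ] at h2
    obtain ⟨l, hl, p, hp, hlp⟩ := Submodule.mem_sup.mp h2
    obtain ⟨l', hl', rfl⟩ := hl
    have h3 : φ (eta0 F ep k N n - l') ∈ P := by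
      rw [map_sub, ← hlp]
      have : φ.toLinearMap l' + p - φ l' = p := by
        rw [AlgHom.toLinearMap_apply, add_sub_cancel_left]
      rw [this]
      exact mem_subsp.mp hp
    have h4 : eta0 F ep k N n ∈ L₁ := by
      have h5 := L₁.add_mem (hQL _ h3) (show l' ∈ L₁ from hl')
      rwa [sub_add_cancel] at h5
    exact (hL _).mp h4
  · exact hinjP

end

end Pool.Agent.U609.RP
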