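import Pool.Agent.U609.RP.Tra

/-!
A function killed by enough translates of the coordinate hyperplanes vanishes.
-/

set_option autoImplicit false
set_option linter.unusedSectionVars false

namespace Pool.Agent.U609.RP

open Finset Pool.Agent.R693 Pool.Agent.R693.W

section
variable {F : Type} [Field F] [CharZero F] {B : Type} [Ring B] [Algebra F B] {x : ℕ → B}

lemma act_Xpow (j a : ℕ) (f : G ℕ → B) (m : G ℕ) :
    act B ((X j : K F ℕ) ^ a) f m = f (m + a • dl j) := by
  induction a generalizing m with
  | zero => rw [pow_zero, act_one, zero_smul, add_zero]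
  | succ a ih => rw [act_pow_succ', act_X, ih, succ_nsmul, add_assoc, add_comm (dl j)]

lemma act_prodX (k : ℕ) (n : G ℕ) (f : G ℕ → B) (m : G ℕ) :
    act B (∏ i ∈ range k, (X i : K F ℕ) ^ (n i)) f m = f (m + fun i => if i < k then n i else 0) := by
  induction k generalizing f with
  | zero =>
    rw [Finset.range_zero, Finset.prod_empty, act_one]
    congr 1
  | succ k ih =>
    rw [Finset.prod_range_succ, act_mul, ih, act_Xpow]
    congr 1
    funext i
    rw [Pi.add_apply, Pi.add_apply, Pi.add_apply, Pi.smul_apply]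
    by_cases h : i = k
    · subst h
      rw [if_neg (lt_irrefl i), if_pos (Nat.lt_succ_self i), dl_self_nat]
      simp
    · rw [dl_ne (Ne.symm h), smul_zero, add_zero]
      by_cases h1 : i < k
      · rw [if_pos h1, if_pos (by omega)]
      · rw [if_neg h1, if_neg (by omega)]

/-- The evaluation of polynomials at the shifts. -/
noncomputable def Ps (F : Type) [Field F] (k : ℕ) : MvPolynomial (Fin k) F →ₐ[F] K F ℕ :=
  MvPolynomial.aeval fun i => X (i : ℕ)

/-- The product of the translated coordinates. -/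
noncomputable def pc (k : ℕ) (c : F) (n0 : ℕ) : MvPolynomial (Fin k) F :=
  ∏ i : Fin k, (MvPolynomial.X i + MvPolynomial.C c) ^ n0

/-- The translation of polynomials. -/
noncomputable def Ph (k : ℕ) (c : F) : MvPolynomial (Fin k) F →ₐ[F] MvPolynomial (Fin k) F :=
  MvPolynomial.aeval fun i => MvPolynomial.X i + MvPolynomial.C c

lemma Ph_Ph (k : ℕ) (c : F) (q : MvPolynomial (Fin k) F) : Ph k c (Ph k (-c) q) = q := by
  have : (Ph k c).comp (Ph k (-c)) = AlgHom.id F _ := by
    ext i
    simp [Ph]
  exact DFunLike.congr_fun this q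

lemma pc_mem {k : ℕ} {S : Submodule F B} {f : G ℕ → B} {c : F} {n0 : ℕ}
    (H : ∀ n : G ℕ, (∀ i < k, n0 ≤ n i) → act B (Pc c k n) f 0 ∈ S)
    (q : MvPolynomial (Fin k) F) : act B (Ps F k (q * pc k c n0)) f 0 ∈ S := by
  rw [← Ph_Ph k c q]
  generalize Ph k (-c) q = q'
  induction q' using MvPolynomial.induction_on' with
  | add p q hp hq =>
    rw [map_add, add_mul, map_add, map_add, LinearMap.add_apply, Pi.add_apply]
    exact S.add_mem hp hq
  | monomial s r =>
    set n : G ℕ := fun i => if h : i < k then s ⟨i, h⟩ + n0 else 0 with hn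
    have h1 : Ps F k (Ph k c (MvPolynomial.monomial s r) * pc k c n0) =
        algebraMap F (K F ℕ) r * Pc c k n := by
      unfold Ph pc Ps
      rw [MvPolynomial.aeval_monomial, map_mul, map_mul, AlgHom.commutes, Finsupp.prod_fintype _ _
        (fun i => pow_zero _), map_prod, map_prod, mul_assoc, ← Finset.prod_mul_distrib]
      congr 1
      unfold Pc
      rw [Finset.prod_range]
      refine Finset.prod_congr rfl fun i _ => ?_
      rw [← map_mul, ← pow_add, map_pow, map_add, MvPolynomial.aeval_X, MvPolynomial.aeval_C, hn]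
      beta_reduce
      rw [dif_pos i.2]
    rw [h1, act_mul, AlgHom.commutes, Module.algebraMap_end_apply, Pi.smul_apply]
    apply S.smul_mem
    apply H
    intro i hi
    rw [hn]
    beta_reduce
    rw [dif_pos hi]
    omega

/-- The ideal of polynomials sending a function into a subspace. -/
noncomputable def aId (k : ℕ) (S : Submodule F B) (f : G ℕ → B) :
    Ideal (MvPolynomial (Fin k) F) where
  carrier := {p | ∀ q, act B (Ps F k (q * p)) f 0 ∈ S}
  add_mem' := by
    intro p p' hp hp' q
    rw [mul_add, map_add, map_add, LinearMap.add_apply, Pi.add_apply]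
    exact S.add_mem (hp q) (hp' q)
  zero_mem' := by
    intro q
    rw [mul_zero, map_zero, map_zero]
    exact S.zero_mem
  smul_mem' := by
    intro r p hp q
    rw [smul_eq_mul, ← mul_assoc]
    exact hp (q * r)

lemma pig {k : ℕ} {S : Submodule F B} {f : G ℕ → B} (hdep : Dep k f) (n0 : ℕ)
    (H : ∀ j : ℕ, j ≤ k → ∀ n : G ℕ, (∀ i < k, n0 ≤ n i) → act B (Pc (j : F) k n) f 0 ∈ S)
    (b : G ℕ) : f b ∈ S := by
  have hone : (1 : MvPolynomial (Fin k) F) ∈ aId k S f := by
    rw [← Ideal.eq_top_iff_one]
    by_contra hne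
    obtain ⟨𝔪, hm, hle⟩ := Ideal.exists_le_maximal _ hne
    have hp := hm.isPrime
    have h1 : ∀ j : Fin (k + 1), ∃ i : Fin k,
        (MvPolynomial.X i + MvPolynomial.C ((j : ℕ) : F) : MvPolynomial (Fin k) F) ∈ 𝔪 := by
      intro j
      have h2 : pc k ((j : ℕ) : F) n0 ∈ 𝔪 := by
        apply hle
        intro q
        exact pc_mem (H j (by omega)) q
      unfold pc at h2
      rw [hp.prod_mem_iff] at h2
      obtain ⟨i, -, hi⟩ := h2
      exact ⟨i, hp.mem_of_pow_mem _ hi⟩
    choose i hi using h1
    obtain ⟨a, b, hab, hib⟩ := Fintype.exists_ne_map_eq_of_card_lt i (by simp)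
    have h2 := 𝔪.sub_mem (hi a) (hi b)
    rw [hib, add_sub_add_left_eq_sub, ← map_sub] at h2
    have h3 : ((a : ℕ) : F) - ((b : ℕ) : F) ≠ 0 := by
      rw [sub_ne_zero]
      intro h
      apply hab
      apply Fin.ext
      exact_mod_cast h
    apply hm.ne_top
    apply Ideal.eq_top_of_isUnit_mem _ h2
    exact (IsUnit.mk0 _ h3).map MvPolynomial.C
  have h1 := hone (∏ i : Fin k, (MvPolynomial.X i) ^ (b i))
  rw [mul_one, map_prod] at h1
  have h2 : ∏ i : Fin k, Ps F k (MvPolynomial.X i ^ b i) = ∏ i ∈ range k, (X i : K F ℕ) ^ (b i) := by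
    rw [Finset.prod_range]
    refine Finset.prod_congr rfl fun i _ => ?_
    unfold Ps
    rw [map_pow, MvPolynomial.aeval_X]
  rw [h2, act_prodX, zero_add] at h1
  rw [hdep b (fun i => if i < k then b i else 0) fun i hi => by rw [if_pos hi]]
  exact h1

end

end Pool.Agent.U609.RP
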