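import Pool.Agent.U609.RP.Exp
import Pool.Agent.R693.R.Main

/-!
Expansion at infinity: the homomorphism from `U(W)` to Laurent series over `U(W_{≥ -1})`.
-/

set_option autoImplicit false
set_option linter.unusedSectionVars false

namespace Pool.Agent.U609.RP

open Finset Pool.Agent.R693 Pool.Agent.R693.W

/-! ### binomials -/

lemma ch_succ (n : ℤ) (j : ℕ) :
    ((j + 1 : ℕ) : ℤ) * Ring.choose n (j + 1) = n * Ring.choose (n - 1) j := by
  have h1 := Ring.descPochhammer_eq_factorial_smul_choose n (j + 1)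
  have h2 := Ring.descPochhammer_eq_factorial_smul_choose (n - 1) j
  rw [← Polynomial.eval_eq_smeval] at h1 h2
  rw [descPochhammer_succ_left, Polynomial.eval_mul, Polynomial.eval_X, Polynomial.eval_comp,
    Polynomial.eval_sub, Polynomial.eval_X, Polynomial.eval_one, h2, Nat.factorial_succ] at h1
  have h3 : (j.factorial : ℤ) ≠ 0 := by exact_mod_cast Nat.factorial_ne_zero j
  apply mul_left_cancel₀ h3
  simp only [nsmul_eq_mul, Nat.cast_mul] at h1
  linear_combination -h1

lemma ch_sum (m n : ℤ) (l : ℕ) :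
    ∑ p ∈ antidiagonal (l + 1), (((p.2 : ℕ) : ℤ) - ((p.1 : ℕ) : ℤ)) *
      (Ring.choose m p.1 * Ring.choose n p.2) = (n - m) * Ring.choose (m + n - 1) l := by
  have h1 : ∑ p ∈ antidiagonal (l + 1), ((p.2 : ℕ) : ℤ) *
      (Ring.choose m p.1 * Ring.choose n p.2) = n * Ring.choose (m + n - 1) l := by
    rw [Finset.Nat.sum_antidiagonal_succ' (f := fun p : ℕ × ℕ => ((p.2 : ℕ) : ℤ) *
      (Ring.choose m p.1 * Ring.choose n p.2))]
    rw [show m + n - 1 = m + (n - 1) by ring, Ring.add_choose_eq l (Commute.all m (n - 1)),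
      Finset.mul_sum]
    simp only [Nat.cast_zero, zero_mul, zero_add]
    refine Finset.sum_congr rfl fun p _ => ?_
    have := ch_succ n p.2
    linear_combination Ring.choose m p.1 * this
  have h2 : ∑ p ∈ antidiagonal (l + 1), ((p.1 : ℕ) : ℤ) *
      (Ring.choose m p.1 * Ring.choose n p.2) = m * Ring.choose (m + n - 1) l := by
    rw [Finset.Nat.sum_antidiagonal_succ (f := fun p : ℕ × ℕ => ((p.1 : ℕ) : ℤ) *
      (Ring.choose m p.1 * Ring.choose n p.2))]
    rw [show m + n - 1 = (m - 1) + n by ring, Ring.add_choose_eq l (Commute.all (m - 1) n),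
      Finset.mul_sum]
    simp only [Nat.cast_zero, zero_mul, zero_add]
    refine Finset.sum_congr rfl fun p _ => ?_
    have := ch_succ m p.1
    linear_combination Ring.choose n p.2 * this
  rw [sub_mul, ← h1, ← h2, ← Finset.sum_sub_distrib]
  exact Finset.sum_congr rfl fun p _ => by ring

section
variable {F : Type} [Field F] [CharZero F] {B : Type} [Ring B] [Algebra F B] {x : ℕ → B}

/-- The power series. -/
noncomputable def pn (F : Type) [Field F] {B : Type} [Ring B] [Algebra F B] (x : ℕ → B) (n : ℤ) :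
    PowerSeries B := PowerSeries.mk fun j => ((Ring.choose n j : ℤ) : F) • x j

lemma isW_nat (hx : IsW F x) {i j l : ℕ} (h : i + j = l + 1) :
    x i * x j - x j * x i = ((j : ℤ) - (i : ℤ) : ℤ) • x l := by
  have := hx i j l h
  have h3 : ∀ k : ℕ, (Lab.c k : ℤ) = k := fun k => rfl
  rw [h3, h3] at this
  rw [this, ← Int.cast_smul_eq_zsmul F]

lemma pn_comm (hx : IsW F x) (m n l : ℤ) (h : m + n = l + 1) :
    pn F x m * pn F x n - pn F x n * pn F x m =
      PowerSeries.C (algebraMap F B ((n - m : ℤ) : F)) * (PowerSeries.X * pn F x l) := by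
  ext k
  rw [map_sub, PowerSeries.coeff_mul, PowerSeries.coeff_mul]
  have h1 : ∑ p ∈ antidiagonal k, PowerSeries.coeff p.1 (pn F x n) *
      PowerSeries.coeff p.2 (pn F x m) = ∑ p ∈ antidiagonal k,
        PowerSeries.coeff p.2 (pn F x n) * PowerSeries.coeff p.1 (pn F x m) :=
    (Finset.Nat.sum_antidiagonal_swap (f := fun p : ℕ × ℕ =>
      PowerSeries.coeff p.2 (pn F x n) * PowerSeries.coeff p.1 (pn F x m))).symm ▸ by
      refine Finset.sum_congr rfl fun p _ => rfl
  rw [h1, ← Finset.sum_sub_distrib]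
  have h2 : ∀ p ∈ antidiagonal k, PowerSeries.coeff p.1 (pn F x m) *
      PowerSeries.coeff p.2 (pn F x n) - PowerSeries.coeff p.2 (pn F x n) *
        PowerSeries.coeff p.1 (pn F x m) =
      (((Ring.choose m p.1 * Ring.choose n p.2 : ℤ)) : F) • (x p.1 * x p.2 - x p.2 * x p.1) := by
    intro p _
    unfold pn
    rw [PowerSeries.coeff_mk, PowerSeries.coeff_mk, smul_mul_smul_comm, smul_mul_smul_comm,
      smul_sub, Int.cast_mul, mul_comm ((Ring.choose n p.2 : ℤ) : F)]
  rw [Finset.sum_congr rfl h2]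
  cases k with
  | zero => simp [PowerSeries.coeff_C_mul]
  | succ k =>
    rw [PowerSeries.coeff_C_mul, PowerSeries.coeff_succ_X_mul]
    have h3 : ∀ p ∈ antidiagonal (k + 1),
        (((Ring.choose m p.1 * Ring.choose n p.2 : ℤ)) : F) • (x p.1 * x p.2 - x p.2 * x p.1) =
          (((((p.2 : ℕ) : ℤ) - ((p.1 : ℕ) : ℤ)) * (Ring.choose m p.1 * Ring.choose n p.2) : ℤ) : F)
            • x k := by
      intro p hp
      rw [isW_nat hx (mem_antidiagonal.mp hp), ← Int.cast_smul_eq_zsmul F, smul_smul,
        ← Int.cast_mul]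
      congr 2
      ring
    rw [Finset.sum_congr rfl h3, ← Finset.sum_smul, ← Int.cast_sum, ch_sum]
    unfold pn
    rw [PowerSeries.coeff_mk, ← Algebra.smul_def, smul_smul, ← Int.cast_mul,
      show m + n - 1 = l by omega]

/-- The Laurent series. -/
noncomputable def Yn (F : Type) [Field F] {B : Type} [Ring B] [Algebra F B] (x : ℕ → B) (n : ℤ) :
    HahnSeries ℤ B := HahnSeries.single (-n) 1 * HahnSeries.ofPowerSeries ℤ B (pn F x n)

lemma single_comm (a : ℤ) (f : HahnSeries ℤ B) :
    HahnSeries.single a 1 * f = f * HahnSeries.single a 1 := by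
  ext m
  rw [HahnSeries.coeff_single_mul, HahnSeries.coeff_mul_single, one_mul, mul_one]

lemma ofPS_coeff_neg (p : PowerSeries B) {m : ℤ} (hm : m < 0) :
    (HahnSeries.ofPowerSeries ℤ B p).coeff m = 0 := by
  rw [HahnSeries.ofPowerSeries_apply]
  apply HahnSeries.embDomain_of_notMem_range
  rintro ⟨k, hk⟩
  have : ((k : ℕ) : ℤ) = m := hk
  omega

lemma Yn_isW (hx : IsW F x) : IsW F (Yn F x) := by
  intro m n j hmn
  have h2 : (Lab.one : ℤ) = 1 := rfl
  have h3 : ∀ k : ℤ, (Lab.c k : ℤ) = k := fun k => rfl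
  rw [h2] at hmn
  rw [h3, h3]
  unfold Yn
  set P := HahnSeries.ofPowerSeries ℤ B (pn F x m) with hP
  set Q := HahnSeries.ofPowerSeries ℤ B (pn F x n) with hQ
  have e1 : HahnSeries.single (-m) 1 * P * (HahnSeries.single (-n) 1 * Q) =
      HahnSeries.single (-m + -n) 1 * (P * Q) := by
    rw [mul_assoc, ← mul_assoc P, ← single_comm (-n) P, mul_assoc, ← mul_assoc,
      HahnSeries.single_mul_single, mul_one]
  have e2 : HahnSeries.single (-n) 1 * Q * (HahnSeries.single (-m) 1 * P) =
      HahnSeries.single (-m + -n) 1 * (Q * P) := by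
    rw [mul_assoc, ← mul_assoc Q, ← single_comm (-m) Q, mul_assoc, ← mul_assoc,
      HahnSeries.single_mul_single, mul_one, add_comm (-n)]
  rw [e1, e2, ← mul_sub, hP, hQ, ← map_mul, ← map_mul, ← map_sub, pn_comm hx m n j hmn, map_mul,
    map_mul, HahnSeries.ofPowerSeries_C, HahnSeries.ofPowerSeries_X, Algebra.smul_def,
    HahnSeries.algebraMap_apply, ← mul_assoc, single_comm, mul_assoc, ← mul_assoc
    (HahnSeries.single (-m + -n) (1 : B)), HahnSeries.single_mul_single, mul_one,
    show -m + -n + 1 = -j by omega]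

lemma Yn_coeff (n m : ℤ) (k : ℕ) (h : m + n = k) :
    (Yn F x n).coeff m = ((Ring.choose n k : ℤ) : F) • x k := by
  unfold Yn
  rw [HahnSeries.coeff_single_mul, one_mul, show m - -n = (k : ℤ) by omega,
    HahnSeries.ofPowerSeries_apply_coeff]
  unfold pn
  rw [PowerSeries.coeff_mk]

lemma Yn_coeff_neg (n m : ℤ) (h : m + n < 0) : (Yn F x n).coeff m = 0 := by
  unfold Yn
  rw [HahnSeries.coeff_single_mul, one_mul, ofPS_coeff_neg _ (by omega)]

/-! ### evaluation of polynomials -/

/-- Evaluation of polynomials at the inverse of the variable. -/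
noncomputable def ev (B : Type) [Ring B] : Polynomial B →+* HahnSeries ℤ B :=
  Polynomial.eval₂RingHom' HahnSeries.C (HahnSeries.single (-1) 1) fun a => by
    change HahnSeries.C a * _ = _ * HahnSeries.C a
    rw [single_comm]

lemma ev_monomial (n : ℕ) (a : B) : ev B (Polynomial.monomial n a) =
    HahnSeries.single (-(n : ℤ)) a := by
  have h1 : ev B (Polynomial.monomial n a) = Polynomial.eval₂ HahnSeries.C
    (HahnSeries.single (-1) 1) (Polynomial.monomial n a) := rfl
  rw [h1, Polynomial.eval₂_monomial]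
  have h2 : (HahnSeries.single (-1 : ℤ) (1 : B)) ^ n = HahnSeries.single (-(n : ℤ)) 1 := by
    induction n with
    | zero => simp
    | succ n ih =>
      rw [pow_succ, ih (by
        have h1 : ev B (Polynomial.monomial n a) = Polynomial.eval₂ HahnSeries.C
          (HahnSeries.single (-1) 1) (Polynomial.monomial n a) := rfl
        exact h1), HahnSeries.single_mul_single, mul_one]
      congr 1
      push_cast
      ring
  rw [h2, HahnSeries.C_apply, HahnSeries.single_mul_single, zero_add, mul_one]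

lemma ev_coeff (p : Polynomial B) (j : ℕ) : (ev B p).coeff (-(j : ℤ)) = p.coeff j := by
  induction p using Polynomial.induction_on' with
  | add p q hp hq => rw [map_add, HahnSeries.coeff_add, hp, hq, Polynomial.coeff_add]
  | monomial n a =>
    rw [ev_monomial, HahnSeries.coeff_single, Polynomial.coeff_monomial]
    by_cases h : n = j
    · rw [if_pos h, if_pos (by omega)]
    · rw [if_neg h, if_neg (by omega)]

lemma ev_coeff_pos (p : Polynomial B) {m : ℤ} (hm : 0 < m) : (ev B p).coeff m = 0 := by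
  induction p using Polynomial.induction_on' with
  | add p q hp hq => rw [map_add, HahnSeries.coeff_add, hp, hq, add_zero]
  | monomial n a =>
    rw [ev_monomial, HahnSeries.coeff_single, if_neg (by omega)]

end

end Pool.Agent.U609.RP
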