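import Pool.Agent.U609.RP.Ser

/-!
Ideals of `U(W)` from ideals of `U(W_{≥ -1})` by expansion at infinity.
-/

set_option autoImplicit false
set_option linter.unusedSectionVars false

namespace Pool.Agent.U609.RP

open Finset Pool.Agent.R693 Pool.Agent.R693.W

section
variable {F : Type} [Field F] [CharZero F] {B : Type} [Ring B] [Algebra F B] {x : ℕ → B}

lemma Dd_x (hx : IsW F x) (n j : ℕ) : Dd F (x 0) j (x n) = (n.choose j : F) • x (n - j) := by
  induction j with
  | zero => rw [Dd_zero, Nat.choose_zero_right, Nat.cast_one, one_smul, Nat.sub_zero]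
  | succ j ih =>
    rw [Dd_succ, ih, mul_smul_comm, smul_mul_assoc, ← smul_sub]
    have hn : ((j + 1 : ℕ) : F) ≠ 0 := by exact_mod_cast Nat.succ_ne_zero j
    by_cases h : n ≤ j
    · rw [Nat.sub_eq_zero_of_le h, sub_self, smul_zero, smul_zero, Nat.choose_eq_zero_of_lt
        (by omega), Nat.cast_zero, zero_smul]
    · obtain ⟨m, hm⟩ : ∃ m, n = j + 1 + m := ⟨n - (j + 1), by omega⟩
      subst hm
      rw [show j + 1 + m - j = m + 1 by omega, show j + 1 + m - (j + 1) = m by omega,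
        isW_nat hx (show 0 + (m + 1) = m + 1 by omega), ← Int.cast_smul_eq_zsmul F, smul_smul,
        smul_smul]
      congr 1
      have h1 : ((j + 1 + m).choose (j + 1) : F) * ((j + 1 : ℕ) : F) =
          ((j + 1 + m).choose j : F) * ((m + 1 : ℕ) : F) := by
        have := Nat.choose_succ_right_eq (j + 1 + m) j
        rw [show j + 1 + m - j = m + 1 by omega] at this
        exact_mod_cast this
      push_cast at h1 hn ⊢
      field_simp
      linear_combination -h1

lemma LN_all (hx : IsW F x) (hgen : ∀ a : B, ∃ k, a ∈ Fl F x k) (a : B) : LN F (x 0) a := by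
  obtain ⟨k, hk⟩ := hgen a
  unfold Fl at hk
  induction hk using Submodule.span_induction with
  | mem y hy =>
    obtain ⟨w, -, rfl⟩ := hy
    induction w with
    | nil => rw [wd_nil]; exact LN.one
    | cons v w ih =>
      rw [wd_cons]
      refine LN.mul ⟨v + 1, fun j hj => ?_⟩ ih
      rw [Dd_x hx, Nat.choose_eq_zero_of_lt (by omega), Nat.cast_zero, zero_smul]
  | zero => exact ⟨0, fun j _ => by
      have := Dd_smul F (x 0) j 0 (0 : B)
      rwa [zero_smul, zero_smul] at this⟩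
  | add y z _ _ hy hz => exact hy.add hz
  | smul r y _ hy => exact hy.smul r

lemma Ex_smul {y : B} (h : ∀ a : B, LN F y a) (r : F) (a : B) :
    Ex F y h (r • a) = Polynomial.C (algebraMap F B r) * Ex F y h a := by
  ext n
  rw [Ex_coeff, Dd_smul, Polynomial.coeff_C_mul, Ex_coeff, Algebra.smul_def]

/-- The expansion of the generators. -/
lemma ev_Ex_x (hx : IsW F x) (h : ∀ a : B, LN F (x 0) a) (n : ℕ) :
    ev B (Ex F (x 0) h (x n)) = Yn F x n := by
  ext m
  rcases lt_trichotomy m 0 with hm | hm | hm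
  · obtain ⟨j, rfl⟩ : ∃ j : ℕ, m = -(j : ℤ) := ⟨m.natAbs, by omega⟩
    rw [ev_coeff, Ex_coeff, Dd_x hx]
    by_cases hj : j ≤ n
    · rw [Yn_coeff (n : ℤ) (-(j : ℤ)) (n - j) (by omega), Ring.choose_natCast, Nat.choose_symm hj]
      simp
    · rw [Yn_coeff_neg _ _ (by omega), Nat.choose_eq_zero_of_lt (by omega), Nat.cast_zero,
        zero_smul]
  · subst hm
    have : (ev B (Ex F (x 0) h (x n))).coeff (-((0 : ℕ) : ℤ)) = _ := ev_coeff _ 0
    rw [show (-((0 : ℕ) : ℤ)) = 0 by simp] at this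
    rw [this, Ex_coeff, Dd_zero, Yn_coeff (n : ℤ) 0 n (by omega), Ring.choose_natCast,
      Nat.choose_self]
    simp
  · rw [ev_coeff_pos _ hm]
    by_cases hn : 0 ≤ m + n
    · obtain ⟨k, hk⟩ := Int.eq_ofNat_of_zero_le hn
      rw [Yn_coeff (n : ℤ) m k (by omega), Ring.choose_natCast, Nat.choose_eq_zero_of_lt (by omega)]
      simp
    · omega

end

section
variable {F : Type} [Field F] [CharZero F] {A Ap : Type} [Ring A] [Ring Ap] [Algebra F A]
  [Algebra F Ap] {e : ℤ → A} {ep : ℕ → Ap}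

/-- The expansion on the subalgebra. -/
lemma T_phi (φ : Ap →ₐ[F] A) (hφ : ∀ n : ℕ, φ (ep n) = e n) (hep : IsW F ep)
    (hgenp : ∀ x : Ap, ∃ k, x ∈ Fl F ep k) (h : ∀ a : Ap, LN F (ep 0) a)
    (T : A →ₐ[F] HahnSeries ℤ Ap) (hT : ∀ n, T (e n) = Yn F ep n) (a : Ap) :
    T (φ a) = ev Ap (Ex F (ep 0) h a) := by
  obtain ⟨k, hk⟩ := hgenp a
  unfold Fl at hk
  induction hk using Submodule.span_induction with
  | mem y hy =>
    obtain ⟨w, -, rfl⟩ := hy
    induction w with
    | nil => rw [wd_nil, map_one, map_one, map_one, map_one]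
    | cons v w ih => rw [wd_cons, map_mul, map_mul, map_mul, map_mul, ih, hφ, hT, ev_Ex_x hep h v]
  | zero => simp
  | add y z _ _ hy hz => rw [map_add, map_add, map_add, map_add, hy, hz]
  | smul r y _ hy =>
    rw [map_smul, map_smul, Ex_smul, map_mul, hy, Algebra.smul_def, HahnSeries.algebraMap_apply]
    congr 1
    have : ev Ap (Polynomial.C (algebraMap F Ap r)) = Polynomial.eval₂ HahnSeries.C
      (HahnSeries.single (-1) 1) (Polynomial.C (algebraMap F Ap r)) := rfl
    rw [this, Polynomial.eval₂_C]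

/-- The ideal of the elements with expansion in an ideal. -/
def sI (T : A →ₐ[F] HahnSeries ℤ Ap) (I : TwoSidedIdeal Ap) : TwoSidedIdeal A :=
  TwoSidedIdeal.mk' {u | ∀ m, (T u).coeff m ∈ I}
    (fun m => by rw [map_zero, HahnSeries.coeff_zero]; exact I.zero_mem)
    (fun ha hb m => by rw [map_add, HahnSeries.coeff_add]; exact I.add_mem (ha m) (hb m))
    (fun ha m => by rw [map_neg, HahnSeries.coeff_neg]; exact I.neg_mem (ha m))
    (fun {a b} hb m => by
      rw [map_mul, HahnSeries.coeff_mul]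
      exact Finset.sum_induction _ (· ∈ I) (fun a b => I.add_mem) I.zero_mem
        fun p _ => I.mul_mem_left _ _ (hb _))
    (fun {a b} ha m => by
      rw [map_mul, HahnSeries.coeff_mul]
      exact Finset.sum_induction _ (· ∈ I) (fun a b => I.add_mem) I.zero_mem
        fun p _ => I.mul_mem_right _ _ (ha _))

lemma mem_sI {T : A →ₐ[F] HahnSeries ℤ Ap} {I : TwoSidedIdeal Ap} {u : A} :
    u ∈ sI T I ↔ ∀ m, (T u).coeff m ∈ I := by
  unfold sI
  rw [TwoSidedIdeal.mem_mk']
  rfl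

lemma comap_sI (φ : Ap →ₐ[F] A) (hφ : ∀ n : ℕ, φ (ep n) = e n) (hep : IsW F ep)
    (hgenp : ∀ x : Ap, ∃ k, x ∈ Fl F ep k)
    (T : A →ₐ[F] HahnSeries ℤ Ap) (hT : ∀ n, T (e n) = Yn F ep n) (I : TwoSidedIdeal Ap) :
    TwoSidedIdeal.comap φ (sI T I) = I := by
  have h := LN_all hep hgenp
  ext a
  rw [TwoSidedIdeal.mem_comap, mem_sI]
  constructor
  · intro ha
    have h1 := ha (-((0 : ℕ) : ℤ))
    rwa [T_phi φ hφ hep hgenp h T hT a, ev_coeff, Ex_coeff, Dd_zero] at h1
  · intro ha m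
    rw [T_phi φ hφ hep hgenp h T hT a]
    by_cases hm : 0 < m
    · rw [ev_coeff_pos _ hm]; exact I.zero_mem
    · obtain ⟨j, rfl⟩ : ∃ j : ℕ, m = -(j : ℤ) := ⟨m.natAbs, by omega⟩
      rw [ev_coeff, Ex_coeff]
      exact Dd_mem F _ ha j

/-- Completely prime ideals give completely prime ideals. -/
lemma sI_cp {T : A →ₐ[F] HahnSeries ℤ Ap} {Q : TwoSidedIdeal Ap}
    (hcp : ∀ a b : Ap, a * b ∈ Q → a ∈ Q ∨ b ∈ Q) {u v : A} (huv : u * v ∈ sI T Q) :
    u ∈ sI T Q ∨ v ∈ sI T Q := by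
  classical
  by_contra hcon
  push Not at hcon
  obtain ⟨hu, hv⟩ := hcon
  have key : ∀ u : A, u ∉ sI T Q → ∃ m, (T u).coeff m ∉ Q ∧ ∀ i < m, (T u).coeff i ∈ Q := by
    intro u hu
    rw [mem_sI] at hu
    push Not at hu
    have hne : {m | (T u).coeff m ∉ Q}.Nonempty := hu
    have hwf : {m | (T u).coeff m ∉ Q}.IsWF := by
      apply (T u).isWF_support.mono
      intro m hm h0
      apply hm
      have h1 : (T u).coeff m = 0 := h0
      rw [h1]
      exact Q.zero_mem
    refine ⟨hwf.min hne, hwf.min_mem hne, fun i hi => ?_⟩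
    by_contra h
    exact hwf.not_lt_min hne h hi
  obtain ⟨m, hm, hm'⟩ := key u hu
  obtain ⟨n, hn, hn'⟩ := key v hv
  have h1 := mem_sI.mp huv (m + n)
  rw [map_mul, HahnSeries.coeff_mul] at h1
  have hmem : (m, n) ∈ Finset.antidiagonal (T u).isPWO_support (T v).isPWO_support (m + n) := by
    rw [Finset.mem_antidiagonal]
    refine ⟨fun h0 => hm ?_, fun h0 => hn ?_, rfl⟩
    · have h2 : (T u).coeff m = 0 := h0
      rw [h2]; exact Q.zero_mem
    · have h2 : (T v).coeff n = 0 := h0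
      rw [h2]; exact Q.zero_mem
  rw [← Finset.add_sum_erase _ _ hmem] at h1
  have h3 : ∑ ij ∈ (Finset.antidiagonal (T u).isPWO_support (T v).isPWO_support (m + n)).erase (m, n),
      (T u).coeff ij.1 * (T v).coeff ij.2 ∈ Q := by
    refine Finset.sum_induction _ (· ∈ Q) (fun a b => Q.add_mem) Q.zero_mem fun p hp => ?_
    rw [Finset.mem_erase, Finset.mem_antidiagonal] at hp
    obtain ⟨h4, -, -, h5⟩ := hp
    by_cases h6 : p.1 < m
    · exact Q.mul_mem_right _ _ (hm' _ h6)
    · have h7 : p.2 < n := by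
        by_contra h8
        apply h4
        ext
        · change p.1 = m; omega
        · change p.2 = n; omega
      exact Q.mul_mem_left _ _ (hn' _ h7)
  have h4 : (T u).coeff m * (T v).coeff n ∈ Q := by
    have := Q.sub_mem h1 h3
    rwa [add_sub_cancel_right] at this
  rcases hcp _ _ h4 with h | h
  · exact hm h
  · exact hn h

lemma sI_ne_top {T : A →ₐ[F] HahnSeries ℤ Ap} {Q : TwoSidedIdeal Ap} (h1 : (1 : Ap) ∉ Q) :
    (1 : A) ∉ sI T Q := by
  intro h
  have := mem_sI.mp h 0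
  rw [map_one] at this
  apply h1
  simpa using this

lemma sI_prime {T : A →ₐ[F] HahnSeries ℤ Ap} {Q : TwoSidedIdeal Ap} (h1 : (1 : Ap) ∉ Q)
    (hcp : ∀ a b : Ap, a * b ∈ Q → a ∈ Q ∨ b ∈ Q) : IsPrimeT (sI T Q) := by
  apply isPrimeT_of_elt (sI_ne_top h1)
  intro a b h
  apply sI_cp hcp
  have := h 1
  rwa [mul_one] at this

end

end Pool.Agent.U609.RP
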