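import Pool.Agent.U609.RP.Zero

/-!
Homeomorphisms of spaces of ideals.
-/

set_option autoImplicit false
set_option linter.unusedSectionVars false

namespace Pool.Agent.U609.RP

open Finset Pool.Agent.R693 Pool.Agent.R693.W

/-- The hull-kernel topology on a set of two-sided ideals, with the closed sets
`{P | I ≤ P}` as basic closed sets. -/
abbrev hullKernel {U : Type} [Ring U] (S : Set (TwoSidedIdeal U)) : TopologicalSpace S :=
  TopologicalSpace.generateFrom {O | ∃ I : TwoSidedIdeal U, O = {P : S | ¬ I ≤ P.1}}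

section
variable {F : Type} [Field F] [CharZero F] {A Ap : Type} [Ring A] [Ring Ap] [Algebra F A]
  [Algebra F Ap]

lemma homeo (φ : Ap →ₐ[F] A) (T : A →ₐ[F] HahnSeries ℤ Ap)
    (S : Set (TwoSidedIdeal A)) (S' : Set (TwoSidedIdeal Ap))
    (h1 : ∀ P ∈ S, TwoSidedIdeal.comap φ P ∈ S') (h2 : ∀ Q ∈ S', sI T Q ∈ S)
    (h3 : ∀ P ∈ S, sI T (TwoSidedIdeal.comap φ P) = P)
    (h4 : ∀ Q ∈ S', TwoSidedIdeal.comap φ (sI T Q) = Q) :
    ∃ E : S ≃ S', (∀ P : S, (E P).1 = TwoSidedIdeal.comap φ P.1) ∧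
      @Continuous _ _ (hullKernel S) (hullKernel S') E ∧
      @Continuous _ _ (hullKernel S') (hullKernel S) E.symm := by
  let E : S ≃ S' :=
    { toFun := fun P => ⟨TwoSidedIdeal.comap φ P.1, h1 _ P.2⟩
      invFun := fun Q => ⟨sI T Q.1, h2 _ Q.2⟩
      left_inv := fun P => Subtype.ext (h3 _ P.2)
      right_inv := fun Q => Subtype.ext (h4 _ Q.2) }
  refine ⟨E, fun P => rfl, ?_, ?_⟩
  · refine continuous_generateFrom_iff.mpr ?_
    rintro _ ⟨I, rfl⟩
    apply TopologicalSpace.isOpen_generateFrom_of_mem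
    refine ⟨TwoSidedIdeal.span (φ '' {x | x ∈ I}), ?_⟩
    ext P
    change ¬ (I ≤ TwoSidedIdeal.comap φ P.1) ↔ ¬ (TwoSidedIdeal.span (φ '' {x | x ∈ I}) ≤ P.1)
    rw [not_iff_not, TwoSidedIdeal.span_le]
    constructor
    · rintro h _ ⟨x, hx, rfl⟩
      exact (TwoSidedIdeal.mem_comap _).mp (h hx)
    · intro h x hx
      rw [TwoSidedIdeal.mem_comap]
      exact h ⟨x, hx, rfl⟩
  · refine continuous_generateFrom_iff.mpr ?_
    rintro _ ⟨I, rfl⟩
    apply TopologicalSpace.isOpen_generateFrom_of_mem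
    refine ⟨TwoSidedIdeal.span {b | ∃ u ∈ I, ∃ m, b = (T u).coeff m}, ?_⟩
    ext Q
    change ¬ (I ≤ sI T Q.1) ↔ ¬ (TwoSidedIdeal.span {b | ∃ u ∈ I, ∃ m, b = (T u).coeff m} ≤ Q.1)
    rw [not_iff_not, TwoSidedIdeal.span_le]
    constructor
    · rintro h _ ⟨u, hu, m, rfl⟩
      exact mem_sI.mp (h hu) m
    · intro h u hu
      rw [mem_sI]
      exact fun m => h ⟨u, hu, m, rfl⟩

end

end Pool.Agent.U609.RP
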