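import Pool.Agent.U609.RP.Spec

/-!
Translations and the basic function.
-/

set_option autoImplicit false
set_option linter.unusedSectionVars false

namespace Pool.Agent.U609.RP

open Finset Pool.Agent.R693 Pool.Agent.R693.W

section
variable {F : Type} [Field F] [CharZero F] {B : Type} [Ring B] [Algebra F B] {x : ℕ → B}

/-- The translated generators. -/
noncomputable def Uc (c : F) (x : ℕ → B) : ℕ → ℕ → B
  | 0, r => x r
  | m + 1, r => Uc c x m (r + 1) + c • Uc c x m r

lemma Uc_eq (c : F) (m : ℕ) : ∀ r : ℕ, Uc c x m r =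
    ∑ j ∈ range (m + 1), (c ^ j * (m.choose j : F)) • x (r + (m - j)) := by
  induction m with
  | zero => intro r; simp [Uc]
  | succ m ih =>
    intro r
    have e1 : Uc c x (m + 1) r = Uc c x m (r + 1) + c • Uc c x m r := rfl
    rw [e1, ih, ih, Finset.sum_range_succ' (n := m + 1)]
    have h1 : ∀ j ∈ range (m + 1), (c ^ (j + 1) * ((m + 1).choose (j + 1) : F)) •
        x (r + (m + 1 - (j + 1))) = c • ((c ^ j * (m.choose j : F)) • x (r + (m - j))) +
          (c ^ (j + 1) * (m.choose (j + 1) : F)) • x (r + (m + 1 - (j + 1))) := by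
      intro j _
      rw [Nat.choose_succ_succ, Nat.cast_add, mul_add, add_smul, smul_smul,
        show m + 1 - (j + 1) = m - j by omega]
      congr 2
      ring
    rw [Finset.sum_congr rfl h1, Finset.sum_add_distrib, ← Finset.smul_sum, add_assoc, add_comm,
      add_right_inj]
    have h2 := Finset.sum_range_succ' (fun j => (c ^ j * (m.choose j : F)) • x (r + (m + 1 - j)))
      (m + 1)
    have h3 := Finset.sum_range_succ (fun j => (c ^ j * (m.choose j : F)) • x (r + (m + 1 - j)))
      (m + 1)
    rw [Nat.choose_succ_self, Nat.cast_zero, mul_zero, zero_smul, add_zero] at h3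
    have h4 : ∑ j ∈ range (m + 1), (c ^ j * (m.choose j : F)) • x (r + 1 + (m - j)) =
        ∑ j ∈ range (m + 1), (c ^ j * (m.choose j : F)) • x (r + (m + 1 - j)) := by
      refine Finset.sum_congr rfl fun j hj => ?_
      have := Finset.mem_range.mp hj
      rw [show r + 1 + (m - j) = r + (m + 1 - j) by omega]
    rw [h4, ← h3, h2]
    simp

lemma tau_x (hx : IsW F x) (h : ∀ a : B, LN F (x 0) a) (c : F) (m : ℕ) :
    tau h c (x m) = Uc c x m 0 := by
  rw [tau_apply h c (x m) (N := m + 1) (fun j hj => by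
    rw [Dd_x hx, Nat.choose_eq_zero_of_lt (by omega), Nat.cast_zero, zero_smul]), Uc_eq]
  refine Finset.sum_congr rfl fun j _ => ?_
  rw [Dd_x hx, smul_smul, zero_add]

/-- The translated monomials. -/
noncomputable def Pc (c : F) (k : ℕ) (n : G ℕ) : K F ℕ :=
  ∏ i ∈ range k, (X i + algebraMap F (K F ℕ) c) ^ (n i)

lemma act_Xc (c : F) (i : ℕ) (f : G ℕ → B) (n : G ℕ) :
    act B (X i + algebraMap F (K F ℕ) c) f n = f (n + dl i) + c • f n := by
  rw [map_add, LinearMap.add_apply, Pi.add_apply, act_X, AlgHom.commutes,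
    Module.algebraMap_end_apply, Pi.smul_apply]

lemma dl_self_nat (i : ℕ) : (dl i : G ℕ) i = 1 := dl_self i

lemma act_Xc_om (c : F) (d m : ℕ) (n : G ℕ) :
    act B ((X d + algebraMap F (K F ℕ) c) ^ m) (om x (d + 1)) n = Uc c x m (n d) * om x d n := by
  induction m generalizing n with
  | zero => rw [pow_zero, act_one]; rfl
  | succ m ih =>
    rw [act_pow_succ', act_Xc, ih, ih]
    have h1 : om x d (n + dl d) = om x d n := by
      apply Dep_om d
      intro i hi
      rw [Pi.add_apply, dl_ne (by omega), add_zero]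
    have e1 : Uc c x (m + 1) (n d) = Uc c x m (n d + 1) + c • Uc c x m (n d) := rfl
    rw [h1, e1, Pi.add_apply, dl_self_nat, add_mul, smul_mul_assoc]

lemma Pc_mem (c : F) (k : ℕ) (n : G ℕ) :
    Pc c k n ∈ Algebra.adjoin F (X '' {i | i < k} : Set (K F ℕ)) := by
  unfold Pc
  apply Subalgebra.prod_mem
  intro i hi
  apply Subalgebra.pow_mem
  exact Subalgebra.add_mem _ (X_mem_adj (Finset.mem_range.mp hi)) (Subalgebra.algebraMap_mem _ _)

lemma tau_om (hx : IsW F x) (h : ∀ a : B, LN F (x 0) a) (c : F) (d : ℕ) (n : G ℕ) :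
    tau h c (om x d n) = act B (Pc c d n) (om x d) 0 := by
  induction d with
  | zero =>
    unfold Pc
    rw [Finset.range_zero, Finset.prod_empty, act_one]
    exact map_one _
  | succ d ih =>
    have h1 : om x (d + 1) n = x (n d) * om x d n := rfl
    have h2 : Pc c (d + 1) n = Pc c d n * (X d + algebraMap F (K F ℕ) c) ^ (n d) := by
      unfold Pc
      rw [Finset.prod_range_succ]
    rw [h1, map_mul, ih, tau_x hx, h2, act_mul]
    have h3 : act B (Pc c d n) (act B ((X d + algebraMap F (K F ℕ) c) ^ (n d)) (om x (d + 1))) 0 =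
        act B (Pc c d n) (fun n' => Uc c x (n d) 0 * om x d n') 0 := by
      apply act_congr_lab (Pc_mem c d n)
      intro n' hn'
      rw [act_Xc_om]
      have h4 := hn' d (by simp)
      rw [h4]
      rfl
    rw [h3, act_left]

/-- The translation of functions. -/
noncomputable def Th (c : F) (k : ℕ) (f : G ℕ → B) : G ℕ → B := fun n => act B (Pc c k n) f 0

lemma Th_X {c : F} {k j : ℕ} (hj : j < k) (f : G ℕ → B) :
    act B (X j : K F ℕ) (Th c k f) = Th c k (act B (X j + algebraMap F (K F ℕ) c) f) := by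
  funext n
  rw [act_X]
  unfold Th
  rw [← act_mul]
  have h0 : Pc c k (n + dl j) = Pc c k n * (X j + algebraMap F (K F ℕ) c) := by
    unfold Pc
    rw [← Finset.mul_prod_erase _ _ (Finset.mem_range.mpr hj),
      ← Finset.mul_prod_erase _ _ (Finset.mem_range.mpr hj), Pi.add_apply, dl_self_nat, pow_succ]
    have h1 : ∏ i ∈ (range k).erase j, (X i + algebraMap F (K F ℕ) c) ^ (((n + dl j : G ℕ)) i) =
        ∏ i ∈ (range k).erase j, (X i + algebraMap F (K F ℕ) c) ^ (n i) := by
      refine Finset.prod_congr rfl fun i hi => ?_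
      rw [Pi.add_apply, dl_ne (Ne.symm (Finset.ne_of_mem_erase hi)), add_zero]
    rw [h1, mul_right_comm]
  rw [h0]

lemma Th_sub (c : F) (k : ℕ) (f g : G ℕ → B) : Th c k (f - g) = Th c k f - Th c k g := by
  funext n
  unfold Th
  rw [map_sub]
  rfl

lemma Th_Dl (c : F) (k N : ℕ) (f : G ℕ → B) :
    act B (Dl F ℕ k ^ N) (Th c k f) = Th c k (act B (Dl F ℕ k ^ N) f) := by
  have h1 : ∀ f : G ℕ → B, act B (Dl F ℕ k) (Th c k f) = Th c k (act B (Dl F ℕ k) f) := by
    unfold Dl
    refine Finset.prod_induction _ (fun p : K F ℕ => ∀ f : G ℕ → B,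
      act B p (Th c k f) = Th c k (act B p f)) ?_ ?_ ?_
    · intro p q hp hq f
      rw [act_mul, act_mul, hq, hp]
    · intro f
      rw [act_one, act_one]
    · intro p hp f
      unfold offd at hp
      simp only [Finset.mem_filter, Finset.mem_product, Finset.mem_range] at hp
      rw [map_sub, LinearMap.sub_apply, LinearMap.sub_apply, Th_X hp.1.1, Th_X hp.1.2, ← Th_sub]
      congr 1
      rw [map_add, map_add, LinearMap.add_apply, LinearMap.add_apply]
      abel
  induction N generalizing f with
  | zero => rw [pow_zero, act_one, act_one]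
  | succ N ih => rw [act_pow_succ, h1, ih, act_pow_succ]

/-- Translation of the basic function. -/
lemma tau_eta (hx : IsW F x) (h : ∀ a : B, LN F (x 0) a) (c : F) (k N : ℕ) (n : G ℕ) :
    tau h c (eta0 F x k N n) = act B (Pc c k n) (eta0 F x k N) 0 := by
  let τ : B →ₗ[F] B :=
    { toFun := tau h c
      map_add' := map_add _
      map_smul' := fun r a => tau_smul h c r a }
  have h1 : tau h c (eta0 F x k N n) = act B (Dl F ℕ k ^ N) (fun n => τ (om x k n)) n := by
    rw [act_map]
    rfl
  have h2 : (fun n => τ (om x k n)) = Th c k (om x k) := by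
    funext n
    exact tau_om hx h c k n
  rw [h1, h2, Th_Dl]
  rfl

end

end Pool.Agent.U609.RP
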