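import Pool.Agent.U609.RP.Lift

/-!
The zero ideal: `U(W)` is a faithfully flat extension of `U(W_{≥ -1})`.
-/

set_option autoImplicit false
set_option linter.unusedSectionVars false

namespace Pool.Agent.U609.RP

open Finset Pool.Agent.R693 Pool.Agent.R693.W

section
variable {F : Type} [Field F] [CharZero F] {A Ap : Type} [Ring A] [Ring Ap] [Algebra F A]
  [Algebra F Ap] {e : ℤ → A} {ep : ℕ → Ap}

/-- Sorted lists of labels. -/
abbrev SL (I : Type) [LE I] := {l : List I // l.Pairwise (· ≤ ·)}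

lemma wd_append {κ : Type*} (e : κ → A) (l l' : List κ) : wd e (l ++ l') = wd e l * wd e l' := by
  simp [wd]

/-- The projection to the subalgebra. -/
noncomputable def pr (β : Module.Basis (SL ℤ) F A) : A →ₗ[F] A := by
  classical
  exact β.constr F fun l => if ∀ i ∈ l.1, 0 ≤ i then β l else 0

lemma pr_pos (β : Module.Basis (SL ℤ) F A) {l : SL ℤ} (h : ∀ i ∈ l.1, 0 ≤ i) : pr β (β l) = β l := by
  unfold pr
  rw [Module.Basis.constr_basis, if_pos h]

lemma pr_neg (β : Module.Basis (SL ℤ) F A) {l : SL ℤ} (h : ¬ ∀ i ∈ l.1, 0 ≤ i) : pr β (β l) = 0 := by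
  unfold pr
  rw [Module.Basis.constr_basis, if_neg h]

variable (β : Module.Basis (SL ℤ) F A) (hβ : ∀ l, β l = wd e l.1)
  (β' : Module.Basis (SL ℕ) F Ap) (hβ' : ∀ l, β' l = wd ep l.1)
  (φ : Ap →ₐ[F] A) (hφ : ∀ n : ℕ, φ (ep n) = e n)

include hφ in
lemma phi_wd (w : List ℕ) : φ (wd ep w) = wd e (w.map fun n : ℕ => (n : ℤ)) := by
  induction w with
  | nil => rw [wd_nil, List.map_nil, wd_nil, map_one]
  | cons v w ih => rw [wd_cons, List.map_cons, wd_cons, map_mul, hφ, ih]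

include hφ in
lemma wd_mem_range {w : List ℤ} (hw : ∀ i ∈ w, 0 ≤ i) : ∃ a, φ a = wd e w := by
  refine ⟨wd ep (w.map Int.toNat), ?_⟩
  rw [phi_wd φ hφ, List.map_map]
  congr 1
  conv_rhs => rw [← List.map_id w]
  apply List.map_congr_left
  intro i hi
  exact Int.toNat_of_nonneg (hw i hi)

include hβ hβ' hφ in
lemma pr_phi (a : Ap) : pr β (φ a) = φ a := by
  have h1 : (pr β).comp φ.toLinearMap = φ.toLinearMap := by
    apply β'.ext
    intro l
    rw [LinearMap.comp_apply, hβ', AlgHom.toLinearMap_apply, phi_wd φ hφ]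
    have hs : (l.1.map fun n : ℕ => (n : ℤ)).Pairwise (· ≤ ·) := by
      rw [List.pairwise_map]
      exact l.2.imp fun h => by exact_mod_cast h
    have h2 : wd e (l.1.map fun n : ℕ => (n : ℤ)) = β ⟨_, hs⟩ := (hβ ⟨_, hs⟩).symm
    rw [h2]
    apply pr_pos
    intro i hi
    obtain ⟨n, -, rfl⟩ := List.mem_map.mp hi
    omega
  exact LinearMap.congr_fun h1 a

lemma split_sorted (l : List ℤ) (hl : l.Pairwise (· ≤ ·)) : ∃ l₁ l₂, l = l₁ ++ l₂ ∧
    (∀ i ∈ l₁, i < 0) ∧ (∀ i ∈ l₂, 0 ≤ i) ∧ l₁.Pairwise (· ≤ ·) := by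
  induction l with
  | nil => exact ⟨[], [], rfl, by simp, by simp, List.Pairwise.nil⟩
  | cons a l ih =>
    obtain ⟨ha, hl'⟩ := List.pairwise_cons.mp hl
    by_cases h0 : 0 ≤ a
    · exact ⟨[], a :: l, rfl, by simp, by
        intro i hi
        rcases List.mem_cons.mp hi with rfl | hi
        · exact h0
        · exact h0.trans (ha i hi), List.Pairwise.nil⟩
    · obtain ⟨l₁, l₂, rfl, h1, h2, h3⟩ := ih hl'
      refine ⟨a :: l₁, l₂, rfl, ?_, h2, ?_⟩
      · intro i hi
        rcases List.mem_cons.mp hi with rfl | hi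
        · omega
        · exact h1 i hi
      · exact List.pairwise_cons.mpr ⟨fun i hi => ha i (List.mem_append_left _ hi), h3⟩

include hβ hβ' hφ in
lemma pr_neg_mul {l₁ : List ℤ} (hl₁ : ∀ i ∈ l₁, i < 0) (hs : l₁.Pairwise (· ≤ ·)) (hne : l₁ ≠ [])
    (a : Ap) : pr β (wd e l₁ * φ a) = 0 := by
  have h1 : (pr β).comp ((LinearMap.mulLeft F (wd e l₁)).comp φ.toLinearMap) = 0 := by
    apply β'.ext
    intro l
    rw [LinearMap.comp_apply, LinearMap.comp_apply, hβ', AlgHom.toLinearMap_apply, phi_wd φ hφ,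
      LinearMap.mulLeft_apply, ← wd_append, LinearMap.zero_apply]
    have hs' : (l₁ ++ l.1.map fun n : ℕ => (n : ℤ)).Pairwise (· ≤ ·) := by
      rw [List.pairwise_append]
      refine ⟨hs, ?_, ?_⟩
      · rw [List.pairwise_map]
        exact l.2.imp fun h => by exact_mod_cast h
      · intro i hi j hj
        obtain ⟨n, -, rfl⟩ := List.mem_map.mp hj
        have := hl₁ i hi
        omega
    have h2 : wd e (l₁ ++ l.1.map fun n : ℕ => (n : ℤ)) = β ⟨_, hs'⟩ := (hβ ⟨_, hs'⟩).symm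
    rw [h2]
    apply pr_neg
    intro h
    obtain ⟨i, hi⟩ := List.exists_mem_of_ne_nil _ hne
    have h3 := h i (List.mem_append_left _ hi)
    have h4 := hl₁ i hi
    omega
  exact LinearMap.congr_fun h1 a

include hβ hβ' hφ in
lemma pr_mul (x : A) (a : Ap) : pr β (x * φ a) = pr β x * φ a := by
  have h1 : (pr β).comp (LinearMap.mulRight F (φ a)) =
      (LinearMap.mulRight F (φ a)).comp (pr β) := by
    apply β.ext
    intro l
    rw [LinearMap.comp_apply, LinearMap.comp_apply, LinearMap.mulRight_apply,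
      LinearMap.mulRight_apply]
    obtain ⟨l₁, l₂, hl, h1, h2, h3⟩ := split_sorted l.1 l.2
    obtain ⟨b, hb⟩ := wd_mem_range (e := e) φ hφ h2
    have h4 : β l = wd e l₁ * φ b := by rw [hβ, hl, wd_append, hb]
    by_cases hne : l₁ = []
    · subst hne
      rw [h4, wd_nil, one_mul, ← map_mul, pr_phi β hβ β' hβ' φ hφ, pr_phi β hβ β' hβ' φ hφ, map_mul]
    · rw [h4, mul_assoc, ← map_mul, pr_neg_mul β hβ β' hβ' φ hφ h1 h3 hne,
        pr_neg_mul β hβ β' hβ' φ hφ h1 h3 hne, zero_mul]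
  exact LinearMap.congr_fun h1 x

include hβ hφ in
lemma pr_range (x : A) : ∃ b, φ b = pr β x := by
  induction β.mem_span x using Submodule.span_induction with
  | mem x hx =>
    obtain ⟨l, rfl⟩ := hx
    by_cases h : ∀ i ∈ l.1, 0 ≤ i
    · obtain ⟨b, hb⟩ := wd_mem_range (e := e) φ hφ h
      exact ⟨b, by rw [pr_pos β h, hb, hβ]⟩
    · exact ⟨0, by rw [pr_neg β h, map_zero]⟩
  | zero => exact ⟨0, by rw [map_zero, map_zero]⟩
  | add x y _ _ hx hy =>
    obtain ⟨b, hb⟩ := hx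
    obtain ⟨b', hb'⟩ := hy
    exact ⟨b + b', by rw [map_add, map_add, hb, hb']⟩
  | smul r x _ hx =>
    obtain ⟨b, hb⟩ := hx
    exact ⟨r • b, by rw [map_smul, map_smul, hb]⟩

include hβ hβ' hφ in
/-- Proper left ideals of the subalgebra generate proper left ideals. -/
lemma span_proper (hinj : Function.Injective φ) (L₁ : Ideal Ap) (h1 : (1 : Ap) ∉ L₁) :
    (1 : A) ∉ Ideal.span (φ '' (L₁ : Set Ap)) := by
  intro hone
  have hall : ∀ y ∈ Ideal.span (φ '' (L₁ : Set Ap)), ∀ a : A, ∃ l ∈ L₁, φ l = pr β (a * y) := by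
    intro y hy
    induction hy using Submodule.span_induction with
    | mem z hz =>
      obtain ⟨l, hl, rfl⟩ := hz
      intro a
      obtain ⟨b, hb⟩ := pr_range β hβ φ hφ a
      exact ⟨b * l, L₁.mul_mem_left b hl, by
        rw [pr_mul β hβ β' hβ' φ hφ, ← hb, map_mul]⟩
    | zero =>
      intro a
      exact ⟨0, L₁.zero_mem, by rw [mul_zero, map_zero, map_zero]⟩
    | add z z' _ _ hz hz' =>
      intro a
      obtain ⟨l, hl, hl'⟩ := hz a
      obtain ⟨m, hm, hm'⟩ := hz' a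
      exact ⟨l + m, L₁.add_mem hl hm, by rw [mul_add, map_add, map_add, hl', hm']⟩
    | smul r z _ hz =>
      intro a
      obtain ⟨l, hl, hl'⟩ := hz (a * r)
      exact ⟨l, hl, by rw [hl', smul_eq_mul, mul_assoc]⟩
  obtain ⟨l, hl, hl'⟩ := hall 1 hone 1
  rw [mul_one, ← map_one φ, pr_phi β hβ β' hβ' φ hφ] at hl'
  rw [hinj hl'] at hl
  exact h1 hl

include hβ hβ' hφ in
/-- Primitive ideals of the subalgebra come from primitive ideals: the zero ideal. -/
theorem lift_zero (hinj : Function.Injective φ)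
    (hinjP : ∀ P' : TwoSidedIdeal A, IsPrimeT P' →
      TwoSidedIdeal.comap φ P' = TwoSidedIdeal.comap φ ⊥ → P' = ⊥)
    (hQ : IsPrim (TwoSidedIdeal.comap φ (⊥ : TwoSidedIdeal A))) :
    IsPrim (⊥ : TwoSidedIdeal A) := by
  obtain ⟨M, _, _, hM, hMQ⟩ := hQ
  have hmemφ : ∀ a : Ap, a ∈ TwoSidedIdeal.comap φ (⊥ : TwoSidedIdeal A) ↔
    φ a ∈ (⊥ : TwoSidedIdeal A) := fun a => TwoSidedIdeal.mem_comap _
  have hnt : Nontrivial M := IsSimpleModule.nontrivial Ap M
  obtain ⟨v, hv⟩ := exists_ne (0 : M)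
  have htrans : ∀ y z : M, y ≠ 0 → ∃ b : Ap, b • y = z := by
    intro y z hy
    have h2 : Submodule.span Ap {y} = ⊤ := by
      rcases eq_bot_or_eq_top (Submodule.span Ap {y}) with h | h
      · rw [Submodule.span_singleton_eq_bot] at h
        exact absurd h hy
      · exact h
    have h3 : z ∈ Submodule.span Ap {y} := by rw [h2]; trivial
    exact Submodule.mem_span_singleton.mp h3
  let L₁ : Ideal Ap :=
    { carrier := {a | a • v = 0}
      add_mem' := fun {a b} ha hb => by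
        change (a + b) • v = 0
        rw [add_smul, show a • v = 0 from ha, show b • v = 0 from hb, add_zero]
      zero_mem' := zero_smul _ _
      smul_mem' := fun r a ha => by
        change (r • a) • v = 0
        rw [smul_eq_mul, mul_smul, show a • v = 0 from ha, smul_zero] }
  have hL : ∀ a, a ∈ L₁ ↔ a • v = 0 := fun a => Iff.rfl
  apply lift_of φ L₁
  · intro a ha
    rw [hL] at ha
    obtain ⟨b, hb⟩ := htrans _ v ha
    exact ⟨b, by rw [hL, sub_smul, one_smul, mul_smul, hb, sub_self]⟩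
  · intro q hq
    rw [← hmemφ, hMQ]
    intro y
    obtain ⟨b, rfl⟩ := htrans v y hv
    have h2 := hq b
    rwa [hL, mul_smul] at h2
  · have h2 : (⊥ : TwoSidedIdeal A).asIdeal = ⊥ := by
      ext a
      rw [TwoSidedIdeal.mem_asIdeal, TwoSidedIdeal.mem_bot, Submodule.mem_bot]
    rw [h2, sup_bot_eq]
    apply span_proper β hβ β' hβ' φ hφ hinj
    rw [hL, one_smul]
    exact hv
  · exact hinjP

end

end Pool.Agent.U609.RP
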